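import Pool.Agent.MP_301177_an.Zero4

open Pool.Agent.MP_301177_an

/-- If the ratios of consecutive singular values are not bounded away from `1`, the points of the
Hankel torus that have the unit circle as natural boundary form a nonempty dense `G_δ` subset of
the torus in the `H^{1/2}` topology: there is such a point, every point of the torus is a limit of
such points, and they are the intersection of countably many relatively open sets `U m`. -/
theorem Pool.Agent.Results.MP_301177_an.GenericNaturalBoundary.result
    (s : ℕ → ℝ) (hpos : ∀ r, 0 < s r) (hanti : StrictAnti s) (hsum : Summable fun r => s r ^ 2)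
    (hgap : ∀ δ : ℝ, δ < 1 → ∃ r, δ * s r < s (r + 1)) :
    (∃ c, InTorus s c ∧ NaturalBoundary c) ∧
    (∀ c, InTorus s c → ∀ ε : ℝ, 0 < ε → ∃ d, InTorus s d ∧ NaturalBoundary d ∧ Close ε c d) ∧
    ∃ U : ℕ → Set (ℕ → ℂ),
      (∀ m, ∀ c ∈ U m, ∃ ε : ℝ, 0 < ε ∧ ∀ d, InTorus s d → Close ε c d → d ∈ U m) ∧
      ∀ c, InTorus s c → (NaturalBoundary c ↔ ∀ m, c ∈ U m) :=
  nb_final hpos hanti hsum hgap
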