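import Pool.Agent.MP_301177_an.Main

open Pool.Agent.MP_301177_an

/-- Every element of a Hankel torus with geometrically decaying singular values extends
holomorphically to a larger disc, with radius and bound depending only on `δ` and `s 0`. -/
theorem Pool.Agent.Results.MP_301177_an.UniformAnalyticity.result
    (δ : ℝ) (hδ : 0 < δ) (hδ1 : δ < 1) :
    ∃ ρ : ℝ, 0 < ρ ∧ ∃ C : ℝ, ∀ s : ℕ → ℝ, (∀ r, 0 < s r) → (∀ r, s (r + 1) ≤ δ * s r) →
      ∀ c : ℕ → ℂ, InTorus s c →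
        ∃ f : ℂ → ℂ, DifferentiableOn ℂ f (Metric.ball 0 (1 + ρ)) ∧
          (∀ z ∈ Metric.ball (0 : ℂ) 1, HasSum (fun n => c n * z ^ n) (f z)) ∧
          ∀ z ∈ Metric.ball (0 : ℂ) (1 + ρ), ‖f z‖ ≤ C * s 0 :=
  Pool.Agent.MP_301177_an.main δ hδ hδ1
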