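import Pool.Agent.MP_301177_an.Zero2

open Pool.Agent.MP_301177_an

/-- Every Hankel torus has a least analytic point, the point with positive Hankel matrices: if it
extends holomorphically to `|z| < R`, the coefficients of every point of the torus are at most
`|c₀ 0| / R ^ n`. -/
theorem Pool.Agent.Results.MP_301177_an.ZeroAngleExtremal.result
    (s : ℕ → ℝ) (hpos : ∀ r, 0 < s r) (hanti : StrictAnti s) (hsum : Summable fun r => s r ^ 2) :
    ∃ c₀ : ℕ → ℂ, InTorus s c₀ ∧ ZeroAngle c₀ ∧ ∀ R : ℝ, 1 < R → ExtendsTo c₀ R →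
      ∀ c : ℕ → ℂ, InTorus s c → ∀ n : ℕ, ‖c n‖ ≤ ‖c₀ 0‖ / R ^ n := by
  obtain ⟨c₀, h1, h2⟩ := exists_zero hpos hanti hsum
  refine ⟨c₀, h1, h2, fun R hR h c hc n => ?_⟩
  rw [div_eq_mul_inv, ← inv_pow]
  exact (zero_angle_main hpos hanti h1 h2 hR h).2 c hc n
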